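import Pool.Agent.Helper23.MV.StL

/-!
# Project MV: module HAR

`∑_{d ≤ z} μ²(d)/φ(d) ≥ log (z+1)`.
-/

set_option autoImplicit false

namespace Pool.Agent.Helper1.MV

open Finset
open Pool.Agent.Helper23.MV

/-- `n ↦ 1/n` as a completely multiplicative function -/
private noncomputable def invHom : ℕ →* ℝ where
  toFun n := ((n : ℝ))⁻¹
  map_one' := by simp
  map_mul' a b := by push_cast; rw [mul_inv]

private theorem invHom_apply (n : ℕ) : invHom n = ((n : ℝ))⁻¹ := rfl

private theorem norm_lt {p : ℕ} (hp : p.Prime) : ‖invHom p‖ < 1 := by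
  have h1 : (1 : ℝ) < p := by exact_mod_cast hp.one_lt
  rw [invHom_apply, norm_inv, Real.norm_of_nonneg (by positivity)]
  exact inv_lt_one_of_one_lt₀ h1

private theorem primeFactors_rad (n : ℕ) :
    (∏ p ∈ n.primeFactors, p).primeFactors = n.primeFactors :=
  Nat.primeFactors_prod fun _ hp => Nat.prime_of_mem_primeFactors hp

private theorem gD_eq (d : ℕ) (hd : Squarefree d) :
    gD (fun p => (1 / (p : ℝ)) / (1 - 1 / (p : ℝ))) d =
      ((d : ℝ))⁻¹ * ∏ p ∈ d.primeFactors with p.Prime, (1 - invHom p)⁻¹ := by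
  have h1 : d.primeFactors.filter (fun p => p.Prime) = d.primeFactors :=
    Finset.filter_true_of_mem fun p hp => Nat.prime_of_mem_primeFactors hp
  have h2 : ((d : ℝ))⁻¹ = ∏ p ∈ d.primeFactors, ((p : ℝ))⁻¹ := by
    conv_lhs => rw [← Nat.prod_primeFactors_of_squarefree hd]
    rw [Nat.cast_prod, Finset.prod_inv_distrib]
  rw [h1, h2, ← Finset.prod_mul_distrib, gD]
  refine Finset.prod_congr rfl fun p _ => ?_
  rw [invHom_apply, one_div, div_eq_mul_inv]

private theorem fiber (z d : ℕ) (hd : Squarefree d) :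
    ∑ n ∈ (Icc 1 z).filter (fun n => ∏ p ∈ n.primeFactors, p = d), ((n : ℝ))⁻¹ ≤
      gD (fun p => (1 / (p : ℝ)) / (1 - 1 / (p : ℝ))) d := by
  classical
  rw [gD_eq d hd]
  set F := (Icc 1 z).filter (fun n => ∏ p ∈ n.primeFactors, p = d) with hF
  obtain ⟨hs, hh⟩ := EulerProduct.summable_and_hasSum_factoredNumbers_prod_filter_prime_geometric
    (f := invHom) (fun hp => norm_lt hp) d.primeFactors
  rw [← hh.tsum_eq]
  have hd0 : d ≠ 0 := hd.ne_zero
  have hmem : ∀ n ∈ F, 1 ≤ n ∧ d ∣ n ∧ n.primeFactors = d.primeFactors := by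
    intro n hn
    rw [hF, Finset.mem_filter, Finset.mem_Icc] at hn
    refine ⟨hn.1.1, ?_, ?_⟩
    · rw [← hn.2]; exact Nat.prod_primeFactors_dvd n
    · rw [← hn.2, primeFactors_rad]
  have hinj : Set.InjOn (fun n => n / d) (F : Set ℕ) := by
    intro a ha b hb hab
    have h1 := (hmem a ha).2.1
    have h2 := (hmem b hb).2.1
    have h3 : a / d = b / d := hab
    rw [← Nat.div_mul_cancel h1, ← Nat.div_mul_cancel h2, h3]
  have hG : ∀ m ∈ F.image (fun n => n / d), m ∈ Nat.factoredNumbers d.primeFactors := by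
    intro m hm
    obtain ⟨n, hn, rfl⟩ := Finset.mem_image.mp hm
    obtain ⟨h1, h2, h3⟩ := hmem n hn
    rw [Nat.mem_factoredNumbers_iff_primeFactors_subset]
    refine ⟨?_, ?_⟩
    · exact (Nat.div_pos (Nat.le_of_dvd h1 h2) (Nat.pos_of_ne_zero hd0)).ne'
    · rw [← h3]
      exact Nat.primeFactors_mono (Nat.div_dvd_of_dvd h2) (by omega)
  have hsum : ∑ n ∈ F, ((n : ℝ))⁻¹ = ((d : ℝ))⁻¹ * ∑ m ∈ F.image (fun n => n / d), invHom m := by
    rw [Finset.sum_image hinj, Finset.mul_sum]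
    refine Finset.sum_congr rfl fun n hn => ?_
    obtain ⟨h1, h2, h3⟩ := hmem n hn
    rw [invHom_apply, ← mul_inv]
    congr 1
    rw [← Nat.cast_mul, Nat.mul_div_cancel' h2]
  rw [hsum]
  refine mul_le_mul_of_nonneg_left ?_ (by positivity)
  rw [← Finset.sum_subtype_of_mem (fun m => invHom m) hG]
  refine hh.summable.sum_le_tsum _ fun m _ => ?_
  rw [invHom_apply]; positivity

theorem hHar : StHar := by
  intro z _
  classical
  have h1 : Real.log (z + 1) ≤ ∑ n ∈ Icc 1 z, ((n : ℝ))⁻¹ := by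
    have h := log_add_one_le_harmonic z
    rw [harmonic_eq_sum_Icc] at h
    push_cast at h
    exact h
  refine h1.trans ?_
  have h2 : ∀ n ∈ Icc 1 z, ∏ p ∈ n.primeFactors, p ∈ (Icc 1 z).filter Squarefree := by
    intro n hn
    rw [Finset.mem_Icc] at hn
    have h3 : 0 < ∏ p ∈ n.primeFactors, p :=
      Finset.prod_pos fun p hp => (Nat.prime_of_mem_primeFactors hp).pos
    rw [Finset.mem_filter, Finset.mem_Icc]
    refine ⟨⟨h3, (Nat.le_of_dvd hn.1 (Nat.prod_primeFactors_dvd n)).trans hn.2⟩, ?_⟩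
    rw [← Nat.radical_eq_prod_primeFactors]
    exact UniqueFactorizationMonoid.squarefree_radical
  rw [← Finset.sum_fiberwise_of_maps_to h2]
  refine Finset.sum_le_sum fun d hd => ?_
  exact fiber z d (Finset.mem_filter.mp hd).2

end Pool.Agent.Helper1.MV
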