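import Pool.Agent.Helper23.MV.StC

/-! Project MV, module NEG: the norm of the errors at the primes of the windows. -/

set_option autoImplicit false

namespace Pool.Agent.Helper1.MV

open Finset
open Pool.Agent.Helper48.BK (ex th)
open Pool.Agent.Helper23.MV

private lemma vt_nonneg' (N₀ H : ℕ) (u : ℝ) : 0 ≤ vt N₀ H u := le_max_left _ _

private lemma vt_le_one' (N₀ H : ℕ) (u : ℝ) : vt N₀ H u ≤ 1 :=
  max_le zero_le_one (min_le_left _ _)

private lemma vt_abs (N₀ H : ℕ) (u : ℝ) : |vt N₀ H u| ≤ 1 := by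
  rw [abs_of_nonneg (vt_nonneg' _ _ _)]
  exact vt_le_one' _ _ _

private lemma vt_zero_left (N₀ H : ℕ) (u : ℝ) (hu : u ≤ (N₀ : ℝ) - 4 * H) :
    vt N₀ H u = 0 := by
  unfold vt
  apply max_eq_left
  apply (min_le_right _ _).trans
  apply (min_le_left _ _).trans
  exact div_nonpos_of_nonpos_of_nonneg (by linarith) (Nat.cast_nonneg _)

private lemma vt_zero_right (N₀ H : ℕ) (u : ℝ) (hu : (N₀ : ℝ) ≤ u) :
    vt N₀ H u = 0 := by
  unfold vt
  apply max_eq_left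
  apply (min_le_right _ _).trans
  apply (min_le_right _ _).trans
  exact div_nonpos_of_nonpos_of_nonneg (by linarith) (Nat.cast_nonneg _)

private lemma vt_step (N₀ H : ℕ) (u : ℝ) : |vt N₀ H (u + 1) - vt N₀ H u| ≤ 1 / H := by
  unfold vt
  have hp : (0 : ℝ) ≤ 1 / H := by positivity
  refine (abs_max_sub_max_le_max _ _ _ _).trans ?_
  rw [sub_self, abs_zero]
  refine max_le hp ?_
  refine (abs_min_sub_min_le_max _ _ _ _).trans ?_
  rw [sub_self, abs_zero]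
  refine max_le hp ?_
  refine (abs_min_sub_min_le_max _ _ _ _).trans ?_
  refine max_le ?_ ?_
  · rw [← sub_div]
    have : (u + 1 - ((N₀ : ℝ) - 4 * H)) - (u - ((N₀ : ℝ) - 4 * H)) = 1 := by ring
    rw [this, abs_of_nonneg hp]
  · rw [← sub_div]
    have : ((N₀ : ℝ) - (u + 1)) - ((N₀ : ℝ) - u) = -1 := by ring
    rw [this, neg_div, abs_neg, abs_of_nonneg hp]

private lemma abel_id (g : ℕ → ℂ) (v : ℕ → ℝ) (y h : ℕ) :
    ∑ m ∈ Ioc y (y + h), g m * ((v m : ℝ) : ℂ) =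
      (∑ m ∈ Ioc y (y + h), g m) * ((v (y + h) : ℝ) : ℂ) -
        ∑ j ∈ range h, (∑ m ∈ Ioc y (y + j), g m) * ((v (y + j + 1) - v (y + j) : ℝ) : ℂ) := by
  induction h with
  | zero => simp
  | succ h ih =>
    rw [← add_assoc, Finset.sum_Ioc_succ_top (by omega), Finset.sum_Ioc_succ_top (by omega), ih,
      Finset.sum_range_succ]
    push_cast
    ring

private lemma abel_norm (g : ℕ → ℂ) (v : ℕ → ℝ) (y h : ℕ) (δ : ℝ)
    (hv : ∀ n, |v n| ≤ 1) (hd : ∀ n, |v (n + 1) - v n| ≤ δ) :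
    ‖∑ m ∈ Ioc y (y + h), g m * ((v m : ℝ) : ℂ)‖ ≤
      ‖∑ m ∈ Ioc y (y + h), g m‖ + δ * ∑ j ∈ range h, ‖∑ m ∈ Ioc y (y + j), g m‖ := by
  rw [abel_id]
  refine (norm_sub_le _ _).trans (add_le_add ?_ ?_)
  · rw [norm_mul, Complex.norm_real, Real.norm_eq_abs]
    exact mul_le_of_le_one_right (norm_nonneg _) (hv _)
  · refine (norm_sum_le _ _).trans ?_
    rw [Finset.mul_sum]
    refine Finset.sum_le_sum fun j _ => ?_
    rw [norm_mul, Complex.norm_real, Real.norm_eq_abs, mul_comm]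
    exact mul_le_mul_of_nonneg_right (hd _) (norm_nonneg _)

private lemma window_sq (g : ℕ → ℂ) (v : ℕ → ℝ) (y h H : ℕ) (K : ℝ) (E : ℕ → ℝ) (hH : 1 ≤ H)
    (hh : h ≤ H) (hK : 0 ≤ K) (hE : ∀ j, 0 ≤ E j) (hv : ∀ n, |v n| ≤ 1)
    (hd : ∀ n, |v (n + 1) - v n| ≤ 1 / H)
    (hS : ∀ j, j ≤ h → ‖∑ m ∈ Ioc y (y + j), g m‖ ≤ K + E j) :
    ‖∑ m ∈ Ioc y (y + h), g m * ((v m : ℝ) : ℂ)‖ ^ 2 ≤
      8 * K ^ 2 + (4 * E h ^ 2 + 4 / H * ∑ j ∈ range h, E j ^ 2) := by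
  have hHp : (0 : ℝ) < H := by exact_mod_cast hH
  have h1 := abel_norm g v y h (1 / H) hv hd
  have h2 : ∑ j ∈ range h, ‖∑ m ∈ Ioc y (y + j), g m‖ ≤ h * K + ∑ j ∈ range h, E j := by
    calc ∑ j ∈ range h, ‖∑ m ∈ Ioc y (y + j), g m‖ ≤ ∑ j ∈ range h, (K + E j) :=
          Finset.sum_le_sum fun j hj => hS j (Finset.mem_range.mp hj).le
      _ = h * K + ∑ j ∈ range h, E j := by
          rw [Finset.sum_add_distrib]; simp
  set A : ℝ := 1 / H * ∑ j ∈ range h, E j with hA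
  have hA0 : 0 ≤ A := mul_nonneg (by positivity) (Finset.sum_nonneg fun j _ => hE j)
  have h3 : (1 / (H : ℝ)) * (h * K) ≤ K := by
    have : (h : ℝ) ≤ H := by exact_mod_cast hh
    rw [one_div, ← mul_assoc, inv_mul_eq_div]
    exact mul_le_of_le_one_left hK ((div_le_one hHp).mpr this)
  have h4 : ‖∑ m ∈ Ioc y (y + h), g m * ((v m : ℝ) : ℂ)‖ ≤ 2 * K + (E h + A) := by
    have h5 : 1 / (H : ℝ) * ∑ j ∈ range h, ‖∑ m ∈ Ioc y (y + j), g m‖ ≤
        1 / (H : ℝ) * (h * K + ∑ j ∈ range h, E j) :=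
      mul_le_mul_of_nonneg_left h2 (by positivity)
    rw [mul_add] at h5
    have h6 := hS h le_rfl
    linarith
  have h5 : A ^ 2 ≤ 1 / H * ∑ j ∈ range h, E j ^ 2 := by
    have h6 : (∑ j ∈ range h, E j) ^ 2 ≤ (h : ℝ) * ∑ j ∈ range h, E j ^ 2 := by
      have := sq_sum_le_card_mul_sum_sq (s := range h) (f := E)
      simpa using this
    have hs : 0 ≤ ∑ j ∈ range h, E j ^ 2 := Finset.sum_nonneg fun j _ => sq_nonneg _
    have h7 : (h : ℝ) ≤ H := by exact_mod_cast hh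
    rw [hA, mul_pow]
    calc (1 / (H : ℝ)) ^ 2 * (∑ j ∈ range h, E j) ^ 2 ≤
          (1 / (H : ℝ)) ^ 2 * (H * ∑ j ∈ range h, E j ^ 2) := by
            apply mul_le_mul_of_nonneg_left _ (by positivity)
            exact h6.trans (mul_le_mul_of_nonneg_right h7 hs)
      _ = 1 / H * ∑ j ∈ range h, E j ^ 2 := by field_simp
  have h8 : ‖∑ m ∈ Ioc y (y + h), g m * ((v m : ℝ) : ℂ)‖ ^ 2 ≤ (2 * K + (E h + A)) ^ 2 :=
    pow_le_pow_left₀ (norm_nonneg _) h4 2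
  have h9 : 4 / (H : ℝ) * ∑ j ∈ range h, E j ^ 2 = 4 * (1 / H * ∑ j ∈ range h, E j ^ 2) := by ring
  rw [h9]
  nlinarith [sq_nonneg (2 * K - (E h + A)), sq_nonneg (E h - A)]

private lemma dcount (W : ℕ → ℝ) (hW : ∀ y, 0 ≤ W y) (X H : ℕ) (hH : 1 ≤ H) (h5 : 5 * H ≤ X)
    (J : Finset ℕ) (hJ : ∀ j ∈ J, j * H < X) :
    ∑ j ∈ J, ∑ y ∈ Ico (X + j * H - 5 * H) (X + j * H), W y ≤
      5 * ∑ y ∈ Icc (X - 6 * H) (2 * X + H), W y := by
  calc ∑ j ∈ J, ∑ y ∈ Ico (X + j * H - 5 * H) (X + j * H), W y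
      = ∑ j ∈ J, ∑ y ∈ (Icc (X - 6 * H) (2 * X + H)).filter
          (fun y => y ∈ Ico (X + j * H - 5 * H) (X + j * H)), W y := by
        refine Finset.sum_congr rfl fun j hj => ?_
        refine Finset.sum_congr ?_ (fun _ _ => rfl)
        ext y
        simp only [Finset.mem_filter, Finset.mem_Icc, Finset.mem_Ico]
        have := hJ j hj
        constructor
        · rintro ⟨h1, h2⟩
          refine ⟨⟨?_, ?_⟩, h1, h2⟩
          · omega
          · omega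
        · rintro ⟨_, h1, h2⟩
          exact ⟨h1, h2⟩
    _ = ∑ y ∈ Icc (X - 6 * H) (2 * X + H), ∑ j ∈ J.filter
          (fun j => y ∈ Ico (X + j * H - 5 * H) (X + j * H)), W y := by
        simp_rw [Finset.sum_filter]
        exact Finset.sum_comm
    _ ≤ ∑ y ∈ Icc (X - 6 * H) (2 * X + H), 5 * W y := by
        refine Finset.sum_le_sum fun y _ => ?_
        rw [Finset.sum_const, nsmul_eq_mul]
        refine mul_le_mul_of_nonneg_right ?_ (hW y)
        have hsub : J.filter (fun j => y ∈ Ico (X + j * H - 5 * H) (X + j * H)) ⊆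
            Icc ((y + 5 * H - X) / H - 4) ((y + 5 * H - X) / H) := by
          intro j hj
          simp only [Finset.mem_filter, Finset.mem_Ico] at hj
          obtain ⟨_, h1, h2⟩ := hj
          rw [Finset.mem_Icc]
          constructor
          · have : (y + 5 * H - X) / H < j + 5 := by
              rw [Nat.div_lt_iff_lt_mul hH, add_mul]
              omega
            omega
          · rw [Nat.le_div_iff_mul_le hH]
            omega
        have hc := Finset.card_le_card hsub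
        rw [Nat.card_Icc] at hc
        have : (J.filter (fun j => y ∈ Ico (X + j * H - 5 * H) (X + j * H))).card ≤ 5 := by omega
        exact_mod_cast this
    _ = 5 * ∑ y ∈ Icc (X - 6 * H) (2 * X + H), W y := by rw [Finset.mul_sum]

private lemma ZS_nonneg' (o : Option (PCh × ℝ)) (c : PCh) (η T Y : ℝ) (hY : 0 ≤ Y) :
    0 ≤ ZS o c η T Y := by
  unfold ZS
  exact Finset.sum_nonneg fun ρ _ => mul_nonneg (Nat.cast_nonneg _) (Real.rpow_nonneg hY _)

/-- the block estimate -/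
private lemma block (hgal : StGal) (o : Option (PCh × ℝ)) (c : PCh) (N₀ H h : ℕ) (B K : ℝ)
    (E : ℕ → ℕ → ℝ) (W : ℕ → ℝ)
    (hWE : ∀ y, 4 * E y h ^ 2 + 4 / H * ∑ j ∈ range h, E y j ^ 2 = W y)
    (hh1 : 1 ≤ h) (hh : h ≤ H) (hN : 5 * H ≤ N₀) (hB : 0 ≤ B)
    (hB' : B ≤ 1 / (2 * h)) (hK : 0 ≤ K) (hE : ∀ y j, 0 ≤ E y j)
    (hS : ∀ y j, j ≤ h →
      ‖∑ m ∈ Ioc y (y + j), (((th m : ℝ) : ℂ) * c.ev m - ((mwt o c m : ℝ) : ℂ))‖ ≤ K + E y j) :
    ∫ β in (-B)..B, ‖Eg o c N₀ H β‖ ^ 2 ≤ Real.pi ^ 2 / (4 * (h : ℝ) ^ 2) *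
      (5 * H * (8 * K ^ 2) + ∑ y ∈ Ico (N₀ - 5 * H) N₀, W y) := by
  have hH1 : 1 ≤ H := hh1.trans hh
  simp_rw [← hWE]
  set g : ℕ → ℂ := fun m => ((th m : ℝ) : ℂ) * c.ev m - ((mwt o c m : ℝ) : ℂ) with hg
  set v : ℕ → ℝ := fun m => vt N₀ H m with hv
  have hEg : ∀ β : ℝ, Eg o c N₀ H β =
      ∑ n ∈ Ioc (N₀ - 4 * H) N₀, (g n * ((v n : ℝ) : ℂ)) * ex (n * β) := by
    intro β
    unfold Eg
    symm
    apply Finset.sum_subset
    · intro n hn
      rw [Finset.mem_Ioc] at hn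
      rw [Finset.mem_Icc]
      omega
    · intro n hn hn'
      rw [Finset.mem_Icc] at hn
      rw [Finset.mem_Ioc] at hn'
      have h1 : n ≤ N₀ - 4 * H := by omega
      have h2 : (n : ℝ) ≤ (N₀ : ℝ) - 4 * H := by
        have h3 : ((n + 4 * H : ℕ) : ℝ) ≤ (N₀ : ℝ) := by
          exact_mod_cast (by omega : n + 4 * H ≤ N₀)
        push_cast at h3
        linarith
      simp only [hv, vt_zero_left N₀ H n h2, Complex.ofReal_zero, mul_zero, zero_mul]
  have h0 := hgal (fun n => g n * ((v n : ℝ) : ℂ)) (N₀ - 4 * H) N₀ h B hh1 (by omega) (by omega)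
    hB hB'
  simp_rw [hEg]
  refine h0.trans ?_
  apply mul_le_mul_of_nonneg_left _ (by positivity)
  have hwin : ∀ y : ℕ, ‖∑ n ∈ (Ioc y (y + h)).filter (fun n => N₀ - 4 * H < n ∧ n ≤ N₀),
      g n * ((v n : ℝ) : ℂ)‖ ^ 2 ≤
      8 * K ^ 2 + (4 * E y h ^ 2 + 4 / H * ∑ j ∈ range h, E y j ^ 2) := by
    intro y
    have h1 : ∑ n ∈ (Ioc y (y + h)).filter (fun n => N₀ - 4 * H < n ∧ n ≤ N₀),
        g n * ((v n : ℝ) : ℂ) = ∑ n ∈ Ioc y (y + h), g n * ((v n : ℝ) : ℂ) := by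
      apply Finset.sum_subset (Finset.filter_subset _ _)
      intro n hn hn'
      rw [Finset.mem_filter, not_and] at hn'
      have h2 := hn' hn
      by_cases h3 : n ≤ N₀
      · have h4 : n ≤ N₀ - 4 * H := by
          by_contra h5
          exact h2 ⟨by omega, h3⟩
        have h6 : (n : ℝ) ≤ (N₀ : ℝ) - 4 * H := by
          have h3 : ((n + 4 * H : ℕ) : ℝ) ≤ (N₀ : ℝ) := by
            exact_mod_cast (by omega : n + 4 * H ≤ N₀)
          push_cast at h3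
          linarith
        simp only [hv, vt_zero_left N₀ H n h6, Complex.ofReal_zero, mul_zero]
      · have h6 : (N₀ : ℝ) ≤ n := by exact_mod_cast (by omega : N₀ ≤ n)
        simp only [hv, vt_zero_right N₀ H n h6, Complex.ofReal_zero, mul_zero]
    rw [h1]
    refine window_sq g v y h H K (E y) hH1 hh hK (hE y) (fun n => vt_abs _ _ _) ?_ (hS y)
    intro n
    have := vt_step N₀ H n
    simp only [hv]
    push_cast
    exact this
  calc ∑ y ∈ Ico (N₀ - 4 * H - h) N₀,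
        ‖∑ n ∈ (Ioc y (y + h)).filter (fun n => N₀ - 4 * H < n ∧ n ≤ N₀),
          g n * ((v n : ℝ) : ℂ)‖ ^ 2
      ≤ ∑ y ∈ Ico (N₀ - 5 * H) N₀,
        ‖∑ n ∈ (Ioc y (y + h)).filter (fun n => N₀ - 4 * H < n ∧ n ≤ N₀),
          g n * ((v n : ℝ) : ℂ)‖ ^ 2 := by
        apply Finset.sum_le_sum_of_subset_of_nonneg
        · intro y hy
          rw [Finset.mem_Ico] at hy ⊢
          omega
        · intro y _ _
          positivity
    _ ≤ ∑ y ∈ Ico (N₀ - 5 * H) N₀,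
        (8 * K ^ 2 + (4 * E y h ^ 2 + 4 / H * ∑ j ∈ range h, E y j ^ 2)) :=
        Finset.sum_le_sum fun y _ => hwin y
    _ = 5 * H * (8 * K ^ 2) + ∑ y ∈ Ico (N₀ - 5 * H) N₀,
        (4 * E y h ^ 2 + 4 / H * ∑ j ∈ range h, E y j ^ 2) := by
        rw [Finset.sum_add_distrib, Finset.sum_const, Nat.card_Ico, nsmul_eq_mul]
        have : N₀ - (N₀ - 5 * H) = 5 * H := by omega
        rw [this]
        push_cast
        ring

/-- the final computation for a good block -/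
private lemma final_ineq (C Z₀ Z T s u K p : ℝ) (h H : ℝ) (hC : 1 ≤ C) (hZ₀ : 0 ≤ Z₀) (hZ : 0 ≤ Z)
    (hh : 0 < h) (hH : 0 ≤ H) (hT0 : 0 ≤ T) (hT : T ≤ 5 * h * Z) (hK : K = C * (h * Z₀ + T))
    (hu : s ^ 2 * u ≤ 25 * h ^ 2 * Z ^ 2) (hp : p ≤ H * (s ^ 2 * u)) :
    Real.pi ^ 2 / (4 * h ^ 2) * (5 * H * (8 * K ^ 2) + p) ≤
      (52 * C * √H * (Z₀ + Z)) ^ 2 := by
  have hK1 : K ≤ 5 * C * h * (Z₀ + Z) := by
    rw [hK]
    have h1 : h * Z₀ + T ≤ 5 * h * (Z₀ + Z) := by nlinarith [mul_nonneg hh.le hZ₀]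
    calc C * (h * Z₀ + T) ≤ C * (5 * h * (Z₀ + Z)) :=
          mul_le_mul_of_nonneg_left h1 (by linarith)
      _ = 5 * C * h * (Z₀ + Z) := by ring
  have hK0 : 0 ≤ K := by
    rw [hK]
    positivity
  have hK2 : K ^ 2 ≤ 25 * C ^ 2 * h ^ 2 * (Z₀ + Z) ^ 2 := by
    calc K ^ 2 ≤ (5 * C * h * (Z₀ + Z)) ^ 2 := pow_le_pow_left₀ hK0 hK1 2
      _ = 25 * C ^ 2 * h ^ 2 * (Z₀ + Z) ^ 2 := by ring
  have hZ2 : Z ^ 2 ≤ C ^ 2 * (Z₀ + Z) ^ 2 := by
    have h1 : Z ^ 2 ≤ (Z₀ + Z) ^ 2 := pow_le_pow_left₀ hZ (by linarith) 2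
    have h2 : 1 ≤ C ^ 2 := one_le_pow₀ hC
    nlinarith [sq_nonneg (Z₀ + Z)]
  have hu2 : s ^ 2 * u ≤ 25 * h ^ 2 * (C ^ 2 * (Z₀ + Z) ^ 2) :=
    hu.trans (mul_le_mul_of_nonneg_left hZ2 (by positivity))
  have h3 : 5 * H * (8 * K ^ 2) + p ≤ 1025 * H * h ^ 2 * (C ^ 2 * (Z₀ + Z) ^ 2) := by
    have h4 : 5 * H * (8 * K ^ 2) ≤ 5 * H * (8 * (25 * C ^ 2 * h ^ 2 * (Z₀ + Z) ^ 2)) := by
      apply mul_le_mul_of_nonneg_left _ (by positivity)
      linarith
    have h5 : H * (s ^ 2 * u) ≤ H * (25 * h ^ 2 * (C ^ 2 * (Z₀ + Z) ^ 2)) :=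
      mul_le_mul_of_nonneg_left hu2 hH
    nlinarith
  have hpi : Real.pi ^ 2 ≤ 10 := by
    have h1 := Real.pi_lt_d2
    have h2 := Real.pi_pos
    nlinarith
  calc Real.pi ^ 2 / (4 * h ^ 2) * (5 * H * (8 * K ^ 2) + p)
      ≤ Real.pi ^ 2 / (4 * h ^ 2) * (1025 * H * h ^ 2 * (C ^ 2 * (Z₀ + Z) ^ 2)) :=
        mul_le_mul_of_nonneg_left h3 (by positivity)
    _ = Real.pi ^ 2 * (1025 / 4 * (H * (C ^ 2 * (Z₀ + Z) ^ 2))) := by
        field_simp
    _ ≤ 10 * (1025 / 4 * (H * (C ^ 2 * (Z₀ + Z) ^ 2))) :=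
        mul_le_mul_of_nonneg_right hpi (by positivity)
    _ ≤ 52 ^ 2 * (H * (C ^ 2 * (Z₀ + Z) ^ 2)) := by
        have : 0 ≤ H * (C ^ 2 * (Z₀ + Z) ^ 2) := by positivity
        nlinarith
    _ = (52 * C * √H * (Z₀ + Z)) ^ 2 := by
        have h6 : √H ^ 2 = H := Real.sq_sqrt hH
        calc 52 ^ 2 * (H * (C ^ 2 * (Z₀ + Z) ^ 2)) = 52 ^ 2 * (√H ^ 2 * (C ^ 2 * (Z₀ + Z) ^ 2)) := by
              rw [h6]
          _ = _ := by ring

/-- the number of bad blocks -/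
private lemma bad_card (W : ℕ → ℝ) (hW0 : ∀ y, 0 ≤ W y) (X H : ℕ) (hH : 1 ≤ H) (h5HX : 5 * H ≤ X)
    (x s u η : ℝ) (Bad : Finset ℕ) (hX0 : 0 < x) (hX50 : (50 : ℝ) ^ (1000 / η) ≤ x) (hs : s = √x)
    (hu : u = x ^ (-(η / 200))) (hs2 : s ^ 2 = x) (hs0 : 0 < s) (hu0 : 0 < u) (hη : 0 < η)
    (hH45 : 4 / 5 * s ≤ H)
    (hWtot : ∑ y ∈ Icc (X - 6 * H) (2 * X + H), W y ≤ 8 * (x * x * u ^ 2))
    (hJ : ∀ j ∈ Bad, j * H < X)
    (hbad : ∀ j ∈ Bad, H * (x * u) < ∑ y ∈ Ico (X + j * H - 5 * H) (X + j * H), W y) :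
    (Bad.card : ℝ) ≤ x ^ (1 / 2 - η / 250) := by
  have h1 : (Bad.card : ℝ) * (H * (x * u)) ≤ 5 * (8 * (x * x * u ^ 2)) := by
    calc (Bad.card : ℝ) * (H * (x * u)) = ∑ j ∈ Bad, (H * (x * u)) := by
          rw [Finset.sum_const, nsmul_eq_mul]
      _ ≤ ∑ j ∈ Bad, ∑ y ∈ Ico (X + j * H - 5 * H) (X + j * H), W y := by
          refine Finset.sum_le_sum fun j hj => ?_
          exact (hbad j hj).le
      _ ≤ 5 * ∑ y ∈ Icc (X - 6 * H) (2 * X + H), W y := by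
          exact dcount W hW0 X H hH h5HX Bad hJ
      _ ≤ 5 * (8 * (x * x * u ^ 2)) := by linarith
  have h2 : (Bad.card : ℝ) * H ≤ 40 * (x * u) := by
    have h3 : 0 < x * u := by positivity
    have h4 : (Bad.card : ℝ) * H * (x * u) ≤ 40 * (x * u) * (x * u) := by nlinarith
    exact le_of_mul_le_mul_right h4 h3
  have h3 : (Bad.card : ℝ) ≤ 50 * (s * u) := by
    have h4 : (Bad.card : ℝ) * (4 / 5 * s) ≤ 40 * (s ^ 2 * u) := by
      rw [hs2]
      exact (mul_le_mul_of_nonneg_left hH45 (Nat.cast_nonneg _)).trans h2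
    have h5 : (Bad.card : ℝ) * s ≤ 50 * (s * u) * s := by nlinarith
    exact le_of_mul_le_mul_right h5 hs0
  have h4 : 50 ≤ x ^ (η / 1000) := by
    have h5 : ((50 : ℝ) ^ (1000 / η)) ^ (η / 1000) ≤ x ^ (η / 1000) :=
      Real.rpow_le_rpow (by positivity) hX50 (by positivity)
    rw [← Real.rpow_mul (by norm_num)] at h5
    have h6 : 1000 / η * (η / 1000) = 1 := by field_simp
    rw [h6, Real.rpow_one] at h5
    exact h5
  calc (Bad.card : ℝ) ≤ 50 * (s * u) := h3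
    _ ≤ x ^ (η / 1000) * (s * u) := mul_le_mul_of_nonneg_right h4 (by positivity)
    _ = x ^ (1 / 2 - η / 250) := by
        rw [hs, hu, Real.sqrt_eq_rpow, ← Real.rpow_add hX0, ← Real.rpow_add hX0]
        congr 1
        ring

theorem hNeg : StGal → StGs → StNeg := by
  intro hgal hgs
  obtain ⟨η₁, hη₁, hη₁', hg⟩ := hgs
  refine ⟨η₁, hη₁, hη₁', ?_⟩
  intro η hη hη'
  obtain ⟨Cg, X0g, hCg, hX0g, hgs⟩ := hg η hη hη'
  have hη100 : η ≤ 1 / 100 := hη'.trans hη₁'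
  refine ⟨52 * Cg, max X0g (max ((50 : ℝ) ^ (1000 / η)) 100), by linarith,
    le_trans hX0g (le_max_left _ _), ?_⟩
  intro X o c P hX hok hc hP1 hP
  have hXg : X0g ≤ X := (le_max_left _ _).trans hX
  have hX50 : (50 : ℝ) ^ (1000 / η) ≤ X := (le_max_left _ _).trans ((le_max_right _ _).trans hX)
  have hX100 : (100 : ℝ) ≤ X := (le_max_right _ _).trans ((le_max_right _ _).trans hX)
  have hX0 : (0 : ℝ) < X := by linarith
  have hX1 : (1 : ℝ) ≤ X := by linarith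
  set x : ℝ := (X : ℝ) with hx
  set s : ℝ := √x with hs
  set H : ℕ := Nat.sqrt X with hHdef
  have hs2 : s ^ 2 = x := Real.sq_sqrt hX0.le
  have hs10 : 10 ≤ s := by
    rw [hs]
    apply Real.le_sqrt_of_sq_le
    linarith
  have hs0 : 0 < s := by linarith
  have hHs : (H : ℝ) ≤ s := Real.nat_sqrt_le_real_sqrt
  have hsH : s < H + 1 := Real.real_sqrt_lt_nat_sqrt_succ
  have hH45 : 4 / 5 * s ≤ H := by linarith
  have hH8 : (8 : ℝ) ≤ H := by linarith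
  have hHp : (0 : ℝ) < H := by linarith
  have hH8n : 8 ≤ H := by exact_mod_cast hH8
  have hHX : H * H ≤ X := Nat.sqrt_le X
  have h5HX : 5 * H ≤ X := by nlinarith
  -- the size of `P`
  have hPs : 2 * P ≤ H := by
    have h1 : P ^ 2 ≤ s := by
      have h2 : P ^ 2 ≤ (x ^ (η / 100000)) ^ 2 := pow_le_pow_left₀ (by linarith) hP 2
      have h3 : (x ^ (η / 100000)) ^ 2 = x ^ (η / 50000) := by
        rw [← Real.rpow_natCast, ← Real.rpow_mul hX0.le]
        congr 1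
        push_cast
        ring
      have h4 : x ^ (η / 50000) ≤ x ^ (1 / 2 : ℝ) :=
        Real.rpow_le_rpow_of_exponent_le hX1 (by linarith)
      rw [hs, Real.sqrt_eq_rpow]
      linarith
    have h5 : P ≤ s / 3 := by
      by_contra h6
      push Not at h6
      have h7 : s / 3 * (s / 3) < P * P := by
        have : 0 < s / 3 := by positivity
        nlinarith
      nlinarith
    linarith
  set t : ℝ := (H : ℝ) / (2 * P) with ht
  have ht1 : 1 ≤ t := by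
    rw [ht, le_div_iff₀ (by linarith)]
    linarith
  set h : ℕ := ⌊t⌋₊ with hh
  have hht : (h : ℝ) ≤ t := Nat.floor_le (by linarith)
  have hth : t < h + 1 := Nat.lt_floor_add_one t
  have hh1 : 1 ≤ h := Nat.one_le_floor_iff _ |>.mpr ht1
  have hh1' : (1 : ℝ) ≤ h := by exact_mod_cast hh1
  have hh0 : (0 : ℝ) < h := by linarith
  have h2P : (0 : ℝ) < 2 * P := by linarith
  have htH : t * (2 * P) = H := by rw [ht]; field_simp
  have hHh : (H : ℝ) ≤ 4 * P * h := by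
    have : t ≤ 2 * h := by linarith
    nlinarith
  have hhH' : (h : ℝ) ≤ H := by
    have : t ≤ H := by
      rw [ht]
      apply div_le_self hHp.le
      linarith
    linarith
  have hhH : h ≤ H := by exact_mod_cast hhH'
  have hs5 : s ≤ 5 * P * h := by nlinarith
  set B : ℝ := P / H with hB
  have hB0 : 0 ≤ B := by positivity
  have hB1 : B ≤ 1 / (2 * h) := by
    rw [hB, div_le_div_iff₀ hHp (by linarith)]
    have : (h : ℝ) * (2 * P) ≤ H := by
      rw [← htH]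
      exact mul_le_mul_of_nonneg_right hht h2P.le
    linarith
  -- the data
  set Z₀ : ℝ := ZS o c (2 * η) x s with hZ₀
  have hZ₀0 : 0 ≤ Z₀ := ZS_nonneg' _ _ _ _ _ hs0.le
  set T : ℝ := s * x ^ (-(η / 2000)) with hT
  have hT0 : 0 ≤ T := by positivity
  set Z : ℝ := x ^ (-(η / 4000)) with hZ
  have hZ0 : 0 ≤ Z := by positivity
  set u : ℝ := x ^ (-(η / 200)) with hu
  have hu0 : 0 < u := by positivity
  have hTZ : T ≤ 5 * h * Z := by
    have h1 : x ^ (η / 100000) * x ^ (-(η / 2000)) ≤ Z := by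
      rw [← Real.rpow_add hX0]
      exact Real.rpow_le_rpow_of_exponent_le hX1 (by linarith)
    have h2 : s ≤ 5 * h * x ^ (η / 100000) := by
      calc s ≤ 5 * P * h := hs5
        _ = 5 * h * P := by ring
        _ ≤ 5 * h * x ^ (η / 100000) := mul_le_mul_of_nonneg_left hP (by positivity)
    calc T ≤ 5 * h * x ^ (η / 100000) * x ^ (-(η / 2000)) :=
          mul_le_mul_of_nonneg_right h2 (by positivity)
      _ = 5 * h * (x ^ (η / 100000) * x ^ (-(η / 2000))) := by ring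
      _ ≤ 5 * h * Z := mul_le_mul_of_nonneg_left h1 (by positivity)
  have huZ : s ^ 2 * u ≤ 25 * (h : ℝ) ^ 2 * Z ^ 2 := by
    have h1 : (x ^ (η / 100000)) ^ 2 * u ≤ Z ^ 2 := by
      rw [hZ, hu, ← Real.rpow_natCast, ← Real.rpow_natCast, ← Real.rpow_mul hX0.le,
        ← Real.rpow_mul hX0.le, ← Real.rpow_add hX0]
      apply Real.rpow_le_rpow_of_exponent_le hX1
      push_cast
      linarith
    have h2 : s ≤ 5 * h * x ^ (η / 100000) := by
      calc s ≤ 5 * P * h := hs5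
        _ = 5 * h * P := by ring
        _ ≤ 5 * h * x ^ (η / 100000) := mul_le_mul_of_nonneg_left hP (by positivity)
    calc s ^ 2 * u ≤ (5 * h * x ^ (η / 100000)) ^ 2 * u :=
          mul_le_mul_of_nonneg_right (pow_le_pow_left₀ hs0.le h2 2) hu0.le
      _ = 25 * (h : ℝ) ^ 2 * ((x ^ (η / 100000)) ^ 2 * u) := by ring
      _ ≤ 25 * (h : ℝ) ^ 2 * Z ^ 2 := mul_le_mul_of_nonneg_left h1 (by positivity)
  set E : ℕ → ℕ → ℝ := fun y l =>
    max 0 (‖∑ m ∈ Ioc y (y + l), (((th m : ℝ) : ℂ) * c.ev m - ((mwt o c m : ℝ) : ℂ))‖ -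
      Cg * (l * Z₀ + T)) with hE
  have hE0 : ∀ y j, 0 ≤ E y j := fun y j => le_max_left _ _
  set K : ℝ := Cg * (h * Z₀ + T) with hK
  have hK0 : 0 ≤ K := by positivity
  have hS : ∀ y j, j ≤ h →
      ‖∑ m ∈ Ioc y (y + j), (((th m : ℝ) : ℂ) * c.ev m - ((mwt o c m : ℝ) : ℂ))‖ ≤ K + E y j := by
    intro y j hj
    have h1 : ‖∑ m ∈ Ioc y (y + j), (((th m : ℝ) : ℂ) * c.ev m - ((mwt o c m : ℝ) : ℂ))‖ -
      Cg * (j * Z₀ + T) ≤ E y j := le_max_right _ _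
    have h2 : Cg * (j * Z₀ + T) ≤ K := by
      have h3 : (j : ℝ) ≤ h := by exact_mod_cast hj
      rw [hK]
      apply mul_le_mul_of_nonneg_left _ (by linarith)
      have := mul_le_mul_of_nonneg_right h3 hZ₀0
      linarith
    linarith
  set W : ℕ → ℝ := fun y => 4 * E y h ^ 2 + 4 / H * ∑ j ∈ range h, E y j ^ 2 with hW
  have hW0 : ∀ y, 0 ≤ W y := by
    intro y
    have h3 : 0 ≤ ∑ j ∈ range h, E y j ^ 2 := Finset.sum_nonneg fun j _ => sq_nonneg _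
    have h2 : 0 ≤ E y h ^ 2 := sq_nonneg _
    have h4 : (0 : ℝ) ≤ 4 / H := div_nonneg (by norm_num) hHp.le
    exact add_nonneg (mul_nonneg (by norm_num) h2) (mul_nonneg h4 h3)
  -- the mean value estimate
  have hmv : ∀ l, l ≤ H → ∑ y ∈ Icc (X - 6 * H) (2 * X + H), E y l ^ 2 ≤ x * x * u ^ 2 := by
    intro l hl
    have h1 := hgs X o c l hXg hok hc hl
    have h2 : x ^ (-(η / 100)) = u ^ 2 := by
      rw [hu, ← Real.rpow_natCast, ← Real.rpow_mul hX0.le]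
      congr 1
      push_cast
      ring
    rw [← h2]
    exact h1
  have hWtot : ∑ y ∈ Icc (X - 6 * H) (2 * X + H), W y ≤ 8 * (x * x * u ^ 2) := by
    have h1 : ∑ y ∈ Icc (X - 6 * H) (2 * X + H), W y =
        4 * ∑ y ∈ Icc (X - 6 * H) (2 * X + H), E y h ^ 2 +
        4 / H * ∑ j ∈ range h, ∑ y ∈ Icc (X - 6 * H) (2 * X + H), E y j ^ 2 := by
      simp only [hW]
      rw [Finset.sum_add_distrib, ← Finset.mul_sum, ← Finset.mul_sum, Finset.sum_comm]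
    rw [h1]
    have h2 := hmv h hhH
    have h3 : ∑ j ∈ range h, ∑ y ∈ Icc (X - 6 * H) (2 * X + H), E y j ^ 2 ≤
        h * (x * x * u ^ 2) := by
      calc ∑ j ∈ range h, ∑ y ∈ Icc (X - 6 * H) (2 * X + H), E y j ^ 2 ≤
            ∑ j ∈ range h, (x * x * u ^ 2) :=
            Finset.sum_le_sum fun j hj => hmv j ((Finset.mem_range.mp hj).le.trans hhH)
        _ = h * (x * x * u ^ 2) := by simp
    have h4 : 4 / (H : ℝ) * ∑ j ∈ range h, ∑ y ∈ Icc (X - 6 * H) (2 * X + H), E y j ^ 2 ≤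
        4 * (x * x * u ^ 2) := by
      have h5 : 0 ≤ x * x * u ^ 2 := by positivity
      calc 4 / (H : ℝ) * ∑ j ∈ range h, ∑ y ∈ Icc (X - 6 * H) (2 * X + H), E y j ^ 2
          ≤ 4 / (H : ℝ) * (H * (x * x * u ^ 2)) := by
            apply mul_le_mul_of_nonneg_left _ (by positivity)
            exact h3.trans (mul_le_mul_of_nonneg_right hhH' h5)
        _ = 4 * (x * x * u ^ 2) := by field_simp
    linarith
  -- bad blocks
  set Bad : Finset ℕ := (range X).filter (fun j => j * H < X ∧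
    H * (x * u) < ∑ y ∈ Ico (X + j * H - 5 * H) (X + j * H), W y) with hBad
  have hsub : (range X).filter (fun j => j * H < X ∧
      52 * Cg * √(H : ℝ) * (Z₀ + Z) < nrm (Eg o c (X + j * H) H) (P / H)) ⊆ Bad := by
    intro j hj
    rw [Finset.mem_filter] at hj
    obtain ⟨hj1, hj2, hj3⟩ := hj
    rw [hBad, Finset.mem_filter]
    refine ⟨hj1, hj2, ?_⟩
    by_contra hcon
    push Not at hcon
    have h1 := block hgal o c (X + j * H) H h B K E W (fun y => rfl) hh1 hhH (by omega) hB0 hB1 hK0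
      hE0 hS
    have h2 := final_ineq Cg Z₀ Z T s u K
      (∑ y ∈ Ico (X + j * H - 5 * H) (X + j * H), W y) h H hCg hZ₀0 hZ0 hh0 hHp.le hT0 hTZ rfl huZ
      (by rw [hs2]; exact hcon)
    have h4 := h1.trans h2
    have hj4 : 52 * Cg * √(H : ℝ) * (Z₀ + Z) < nrm (Eg o c (X + j * H) H) B := hj3
    clear hj3
    clear_value W E K Z₀ Z T s u B
    have h3 : nrm (Eg o c (X + j * H) H) B ≤ 52 * Cg * √(H : ℝ) * (Z₀ + Z) := by
      unfold nrm
      apply Real.sqrt_le_iff.mpr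
      exact ⟨by positivity, h4⟩
    exact absurd hj4 (not_lt.mpr h3)
  have hcard := Finset.card_le_card hsub
  have hBadcard : (Bad.card : ℝ) ≤ x ^ (1 / 2 - η / 250) := by
    exact bad_card W hW0 X H (by omega) h5HX x s u η Bad hX0 hX50 rfl rfl hs2 hs0 hu0 hη hH45 hWtot
      (fun j hj => ((Finset.mem_filter.mp hj).2).1) (fun j hj => ((Finset.mem_filter.mp hj).2).2)
  exact le_trans (Nat.cast_le.mpr hcard) hBadcard

end Pool.Agent.Helper1.MV
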